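import Pool.Agent.V11235.SC.Prim
import Pool.Agent.V11235.SE.Prim

/-! Primes of prime norm modulo which a polynomial has no root, and primes modulo which it has only
factors of degree divisible by `ℓ`: a positive proportion of all primes. -/

set_option autoImplicit false

namespace Pool.Agent.V11235.SF

open Polynomial NumberField IsDedekindDomain Finset
open Pool.Agent.W401.Cheb Pool.Agent.W723.SecC Pool.Agent.V11235.SC Pool.Agent.V11235.SE

/-- a positive proportion of all primes -/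
def Dense (S : Set ℕ) : Prop := ∃ δ C : ℝ, 0 < δ ∧ ∀ N : ℕ,
      δ * (∑ n ∈ range N, Set.indicator {p | p.Prime} (fun _ => (1 : ℝ)) n) - C ≤
      ∑ n ∈ range N, Set.indicator S (fun _ => (1 : ℝ)) n

theorem prim_dense (K : Type) [Field K] [NumberField K] (g : (𝓞 K)[X]) (c : 𝓞 K) (hc : c ≠ 0)
    (hsep : (g.map (algebraMap (𝓞 K) K)).Separable)
    (hσ : ∃ σ : AlgebraicClosure K ≃ₐ[K] AlgebraicClosure K,
      ∀ θ : AlgebraicClosure K, aeval θ (g.map (algebraMap (𝓞 K) K)) = 0 → σ θ ≠ θ) :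
    ∃ S : Set ℕ, (∀ p ∈ S, p.Prime) ∧ Dense S ∧ ∀ p ∈ S, ∃ v : HeightOneSpectrum (𝓞 K),
      Props g c v ∧ Ideal.absNorm v.asIdeal = p := by
  classical
  obtain ⟨σ, hσ⟩ := hσ
  obtain ⟨L, _, _, _, i, τ, hτi, hτθ, hspl⟩ :=
    exists_L K (g.map (algebraMap (𝓞 K) K)) hsep.ne_zero σ hσ
  let iO : 𝓞 K →+* 𝓞 L := RingOfIntegers.mapRingHom i
  have hiO : ∀ x, ((iO x : 𝓞 L) : L) = i x := fun x => rfl
  have hiinj : Function.Injective iO := by
    intro x y hxy
    have h1 : (iO x : L) = iO y := by rw [hxy]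
    rw [hiO, hiO] at h1
    exact RingOfIntegers.coe_injective (i.injective h1)
  have hsmul : ∀ x : 𝓞 L, ((τ • x : 𝓞 L) : L) = τ x := fun x => rfl
  have hτO : ∀ x, τ • (iO x) = iO x := by
    intro x
    apply RingOfIntegers.ext
    rw [hsmul, hiO, hτi]
  obtain ⟨u, w, D, hD, huw⟩ := sep_int K g hsep
  have hg0 : g ≠ 0 := by
    rintro rfl
    exact hsep.ne_zero (Polynomial.map_zero _)
  set lc := g.leadingCoeff with hlc
  have hlc0 : lc ≠ 0 := leadingCoeff_ne_zero.mpr hg0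
  -- the image of `g` over `L`
  set gL : L[X] := (g.map (algebraMap (𝓞 K) K)).map i with hgL
  have hgL0 : gL ≠ 0 := by
    rw [hgL, Ne, Polynomial.map_eq_zero]
    exact hsep.ne_zero
  have hgLeval : ∀ a : 𝓞 K, gL.eval (i a) = i (g.eval a : 𝓞 K) := by
    intro a
    rw [hgL, Polynomial.map_map, eval_map]
    have h1 := Polynomial.hom_eval₂ g (RingHom.id (𝓞 K)) (i.comp (algebraMap (𝓞 K) K)) a
    rw [RingHom.comp_id] at h1
    exact h1.symm
  have hgLlc : gL.leadingCoeff = i (lc : K) := by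
    rw [hgL, leadingCoeff_map, leadingCoeff_map_of_injective
      (FaithfulSMul.algebraMap_injective (𝓞 K) K)]
  have hroot : ∀ θ ∈ gL.roots, gL.eval θ = 0 := fun θ hθ => (mem_roots hgL0).mp hθ
  have hint : ∀ θ ∈ gL.roots, IsIntegral ℤ (i (lc : K) * θ) := by
    intro θ hθ
    have h1 : (i.comp (algebraMap (𝓞 K) K)).IsIntegralElem
        ((i.comp (algebraMap (𝓞 K) K)) lc * θ) := by
      refine (i.comp (algebraMap (𝓞 K) K)).isIntegralElem_leadingCoeff_mul g θ ?_
      have h2 := hroot θ hθ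
      rw [hgL, Polynomial.map_map, eval_map] at h2
      exact h2
    let _ : Algebra (𝓞 K) L := (i.comp (algebraMap (𝓞 K) K)).toAlgebra
    exact isIntegral_trans (R := ℤ) (A := 𝓞 K) _ h1
  have hηex : ∀ θ : L, ∃ y : 𝓞 L, θ ∈ gL.roots → ((y : 𝓞 L) : L) = i (lc : K) * θ := by
    intro θ
    by_cases hθ : θ ∈ gL.roots
    · exact ⟨⟨_, hint θ hθ⟩, fun _ => rfl⟩
    · exact ⟨0, fun h => absurd h hθ⟩
  choose η hη using hηex
  have hδ : ∀ θ ∈ gL.roots, τ • (η θ) - η θ ≠ 0 := by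
    intro θ hθ h0
    have h1 : ((τ • (η θ) - η θ : 𝓞 L) : L) = 0 := by rw [h0]; rfl
    have h2 : ((τ • (η θ) - η θ : 𝓞 L) : L) = i (lc : K) * (τ θ - θ) := by
      have h3 : ((τ • (η θ) - η θ : 𝓞 L) : L) = τ (η θ) - η θ := rfl
      rw [h3, hη θ hθ, map_mul, hτi]
      ring
    rw [h2, mul_eq_zero] at h1
    rcases h1 with h1 | h1
    · apply hlc0
      apply RingOfIntegers.coe_injective
      apply i.injective
      rw [h1]
      simp
    · refine hτθ θ ?_ (sub_eq_zero.mp h1)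
      have h2 := hroot θ hθ
      rw [hgL, eval_map] at h2
      exact h2
  -- the bad primes
  have hE1 : iO (c * 2 * lc * D) ≠ 0 := by
    rw [Ne, map_eq_zero_iff iO hiinj]
    exact mul_ne_zero (mul_ne_zero (mul_ne_zero hc two_ne_zero) hlc0) hD
  obtain ⟨m1, hm1, hm1'⟩ := nz L _ hE1
  choose mθ hmθ hmθ' using fun θ : {θ // θ ∈ gL.roots.toFinset} =>
    nz L _ (hδ θ.1 (Multiset.mem_toFinset.mp θ.2))
  set m : ℕ := m1 * ∏ θ, mθ θ with hm
  have hmpos : 0 < m := Nat.mul_pos hm1 (Finset.prod_pos fun θ _ => hmθ θ)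
  obtain ⟨δ, C', hδpos, hcount⟩ := count L τ m hmpos
  refine ⟨frobSet L τ m, fun p hp => hp.1, ⟨δ, C', hδpos, hcount⟩, ?_⟩
  intro p hp
  obtain ⟨hpp, hpm, hxp⟩ := hp
  have : Fact p.Prime := ⟨hpp⟩
  have hex : ∃ φ : 𝓞 L →+* AlgebraicClosure (ZMod p), HasFrob p φ τ := by
    unfold xp at hxp
    rw [dif_pos hpp] at hxp
    by_contra h
    push Not at h
    apply hxp
    rw [Nat.card_eq_zero]
    left
    exact ⟨fun x => h x.1 x.2⟩
  obtain ⟨φ, hφ⟩ := hex
  have hcast : ∀ n : ℕ, n ∣ m → (n : AlgebraicClosure (ZMod p)) ≠ 0 := by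
    intro n hn h
    rw [CharP.cast_eq_zero_iff (AlgebraicClosure (ZMod p)) p] at h
    exact hpm (h.trans hn)
  have hφE1 : φ (iO (c * 2 * lc * D)) ≠ 0 := hm1' _ φ (hcast m1 (Dvd.intro _ rfl))
  have hφθ : ∀ θ ∈ gL.roots, φ (τ • (η θ) - η θ) ≠ 0 := by
    intro θ hθ
    have hθ' : θ ∈ gL.roots.toFinset := Multiset.mem_toFinset.mpr hθ
    refine hmθ' ⟨θ, hθ'⟩ _ φ (hcast _ ?_)
    exact (Finset.dvd_prod_of_mem mθ (Finset.mem_univ _)).trans (Dvd.intro_left _ rfl)
  let ψ : 𝓞 K →+* AlgebraicClosure (ZMod p) := φ.comp iO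
  have hψ : ∀ x, ψ x ^ p = ψ x := by
    intro x
    have h1 := hφ (iO x)
    rw [hτO] at h1
    exact h1.symm
  have hnorm := absNorm_ker K p (AlgebraicClosure (ZMod p)) ψ hψ
  have hmem : ∀ x, x ∈ RingHom.ker ψ ↔ φ (iO x) = 0 := fun x => RingHom.mem_ker
  have hprime : (RingHom.ker ψ).IsPrime := RingHom.ker_isPrime ψ
  have hbot : RingHom.ker ψ ≠ ⊥ := by
    intro h
    rw [h, Ideal.absNorm_bot] at hnorm
    exact hpp.ne_zero hnorm.symm
  have hmax : (RingHom.ker ψ).IsMaximal := hprime.isMaximal hbot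
  have hφ4 : φ (iO c) ≠ 0 ∧ φ (iO 2) ≠ 0 ∧ φ (iO lc) ≠ 0 ∧ φ (iO D) ≠ 0 := by
    rw [map_mul, map_mul, map_mul, map_mul, map_mul, map_mul] at hφE1
    refine ⟨?_, ?_, ?_, ?_⟩ <;> intro h <;> apply hφE1 <;> rw [h] <;> ring
  obtain ⟨h4c, h42, h4lc, h4D⟩ := hφ4
  refine ⟨⟨RingHom.ker ψ, hprime, hbot⟩, ⟨?_, ?_, ?_, ?_, ?_⟩, hnorm⟩
  · exact fun h => h4c ((hmem _).mp h)
  · exact fun h => h42 ((hmem _).mp h)
  · exact fun h => h4lc ((hmem _).mp h)
  · obtain ⟨y, hy⟩ : ∃ y : 𝓞 K, (Ideal.Quotient.mk (RingHom.ker ψ)) (y * D) = 1 := by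
      obtain ⟨y, z, hz, hy⟩ := hmax.exists_inv (fun h => h4D ((hmem _).mp h))
      refine ⟨y, ?_⟩
      have h6 := congrArg (Ideal.Quotient.mk (RingHom.ker ψ)) hy
      rw [map_add, Ideal.Quotient.eq_zero_iff_mem.mpr hz, add_zero, map_one] at h6
      exact h6
    refine ⟨C (Ideal.Quotient.mk _ y) * u.map (Ideal.Quotient.mk _),
      C (Ideal.Quotient.mk _ y) * w.map (Ideal.Quotient.mk _), ?_⟩
    have h5 := congrArg (Polynomial.map (Ideal.Quotient.mk (RingHom.ker ψ))) huw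
    rw [Polynomial.map_add, Polynomial.map_mul, Polynomial.map_mul, map_C] at h5
    rw [derivative_map, mul_assoc, mul_assoc, ← mul_add, h5, ← C_mul, ← map_mul, hy, C_1]
  · intro a ha
    obtain ⟨x, rfl⟩ := Ideal.Quotient.mk_surjective a
    rw [eval_map_apply, Ideal.Quotient.eq_zero_iff_mem] at ha
    have h1 : φ (iO (g.eval x)) = 0 := (hmem _).mp ha
    have hfac : gL = C gL.leadingCoeff * (gL.roots.map fun θ => X - C θ).prod :=
      hspl.eq_prod_roots
    have h2 : iO lc ^ (Multiset.card gL.roots) * iO (g.eval x) =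
        iO lc * (gL.roots.map fun θ => iO lc * iO x - η θ).prod := by
      apply RingOfIntegers.coe_injective
      rw [map_mul, map_mul, map_pow, map_multiset_prod, Multiset.map_map]
      have h7 : (algebraMap (𝓞 L) L) (iO (g.eval x)) = gL.eval (i x) := (hgLeval x).symm
      have h8 : (algebraMap (𝓞 L) L) (iO lc) = i (lc : K) := rfl
      have h9 : gL.eval (i x) = i (lc : K) * (gL.roots.map fun θ => i x - θ).prod := by
        conv_lhs => rw [hfac]
        rw [eval_mul, eval_C, hgLlc, eval_multiset_prod, Multiset.map_map]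
        congr 2
        refine Multiset.map_congr rfl fun θ _ => ?_
        simp
      have h10 : gL.roots.map ((algebraMap (𝓞 L) L) ∘ fun θ => iO lc * iO x - η θ) =
          gL.roots.map (fun θ => i (lc : K) * (i x - θ)) := by
        refine Multiset.map_congr rfl fun θ hθ => ?_
        have h11 := hη θ hθ
        change (algebraMap (𝓞 L) L) (iO lc * iO x - η θ) = _
        rw [map_sub, map_mul, h8]
        change i (lc : K) * i x - ((η θ : 𝓞 L) : L) = _
        rw [h11]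
        ring
      rw [h7, h8, h9, h10, Multiset.prod_map_mul, Multiset.map_const', Multiset.prod_replicate]
      ring
    have h3 := congrArg φ h2
    rw [map_mul, map_mul, h1, mul_zero, map_multiset_prod, Multiset.map_map] at h3
    have h4 : ((gL.roots.map (φ ∘ fun θ => iO lc * iO x - η θ))).prod = 0 := by
      rcases mul_eq_zero.mp h3.symm with h | h
      · exact absurd h h4lc
      · exact h
    rw [Multiset.prod_eq_zero_iff, Multiset.mem_map] at h4
    obtain ⟨θ, hθ, h5⟩ := h4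
    have h6 : φ (iO (lc * x)) = φ (η θ) := by
      have h7 : φ (iO lc * iO x - η θ) = 0 := h5
      rw [map_sub, sub_eq_zero] at h7
      rw [map_mul iO, h7]
    apply hφθ θ hθ
    rw [map_sub, hφ (η θ), ← h6]
    have h8 := hψ (lc * x)
    change φ (iO (lc * x)) ^ p = φ (iO (lc * x)) at h8
    rw [h8, sub_self]

theorem prim_ell_dense (K : Type) [Field K] [NumberField K] (ℓ : ℕ) (g : (𝓞 K)[X]) (c : 𝓞 K)
    (hc : c ≠ 0) (hsep : (g.map (algebraMap (𝓞 K) K)).Separable)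
    (hσ : ∃ σ : AlgebraicClosure K ≃ₐ[K] AlgebraicClosure K, ∀ n : ℕ, ¬ ℓ ∣ n →
      ∀ θ : AlgebraicClosure K, aeval θ (g.map (algebraMap (𝓞 K) K)) = 0 → (σ ^ n) θ ≠ θ) :
    ∃ S : Set ℕ, (∀ p ∈ S, p.Prime) ∧ Dense S ∧ ∀ p ∈ S, ∃ v : HeightOneSpectrum (𝓞 K),
      PropsE ℓ g c v ∧ Ideal.absNorm v.asIdeal = p := by
  classical
  obtain ⟨σ, hσ⟩ := hσ
  have hgK0 : g.map (algebraMap (𝓞 K) K) ≠ 0 := hsep.ne_zero
  have hgKb : (g.map (algebraMap (𝓞 K) K)).map (algebraMap K (AlgebraicClosure K)) ≠ 0 := by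
    rwa [Ne, Polynomial.map_eq_zero]
  obtain ⟨L, _, _, _, i, τ, κ, hκi, hκτ, hκs⟩ := Pool.Agent.TH120.Sec.exists_L K
    {ρ | ((g.map (algebraMap (𝓞 K) K)).map (algebraMap K (AlgebraicClosure K))).eval ρ = 0}
    (Polynomial.finite_setOfPred_isRoot hgKb) σ
  have hκinj := κ.injective
  have hτi : ∀ x, τ (i x) = i x := by
    intro x
    apply hκinj
    rw [hκτ, hκi, AlgEquiv.commutes]
  have hκτn : ∀ (n : ℕ) (x : L), κ ((τ ^ n) x) = (σ ^ n) (κ x) := by
    intro n
    induction n with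
    | zero => intro x; rfl
    | succ n ih =>
      intro x
      rw [pow_succ', pow_succ', AlgEquiv.mul_apply, AlgEquiv.mul_apply, hκτ, ih]
  let iO : 𝓞 K →+* 𝓞 L := RingOfIntegers.mapRingHom i
  have hiO : ∀ x, ((iO x : 𝓞 L) : L) = i x := fun x => rfl
  have hiinj : Function.Injective iO := by
    intro x y hxy
    have h1 : (iO x : L) = iO y := by rw [hxy]
    rw [hiO, hiO] at h1
    exact RingOfIntegers.coe_injective (i.injective h1)
  have hsmul : ∀ (n : ℕ) (x : 𝓞 L), (((τ ^ n) • x : 𝓞 L) : L) = (τ ^ n) x := fun n x => rfl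
  have hτO : ∀ x, τ • (iO x) = iO x := by
    intro x
    apply RingOfIntegers.ext
    change τ (i x) = i x
    exact hτi x
  obtain ⟨u, w, D, hD, huw⟩ := sep_int K g hsep
  have hg0 : g ≠ 0 := by
    rintro rfl
    exact hsep.ne_zero (Polynomial.map_zero _)
  set lc := g.leadingCoeff with hlc
  have hlc0 : lc ≠ 0 := leadingCoeff_ne_zero.mpr hg0
  -- the image of `g` over `L`
  set gL : L[X] := (g.map (algebraMap (𝓞 K) K)).map i with hgL
  have hgL0 : gL ≠ 0 := by
    rw [hgL, Ne, Polynomial.map_eq_zero]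
    exact hsep.ne_zero
  have hκicomp : κ.comp i = algebraMap K (AlgebraicClosure K) := by
    ext x
    exact hκi x
  have hgLκ : gL.map κ = (g.map (algebraMap (𝓞 K) K)).map (algebraMap K (AlgebraicClosure K)) := by
    rw [hgL, Polynomial.map_map, hκicomp]
  have hspl : gL.Splits := by
    refine Splits.of_splits_map κ (IsAlgClosed.splits _) ?_
    intro a ha
    rw [hgLκ, mem_roots hgKb] at ha
    obtain ⟨y, hy⟩ := hκs a ha
    exact ⟨y, hy⟩
  have hgLlc : gL.leadingCoeff = i (lc : K) := by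
    rw [hgL, leadingCoeff_map, leadingCoeff_map_of_injective
      (FaithfulSMul.algebraMap_injective (𝓞 K) K)]
  have hroot : ∀ θ ∈ gL.roots, gL.eval θ = 0 := fun θ hθ => (mem_roots hgL0).mp hθ
  have hint : ∀ θ ∈ gL.roots, IsIntegral ℤ (i (lc : K) * θ) := by
    intro θ hθ
    have h1 : (i.comp (algebraMap (𝓞 K) K)).IsIntegralElem
        ((i.comp (algebraMap (𝓞 K) K)) lc * θ) := by
      refine (i.comp (algebraMap (𝓞 K) K)).isIntegralElem_leadingCoeff_mul g θ ?_
      have h2 := hroot θ hθ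
      rw [hgL, Polynomial.map_map, eval_map] at h2
      exact h2
    let _ : Algebra (𝓞 K) L := (i.comp (algebraMap (𝓞 K) K)).toAlgebra
    exact isIntegral_trans (R := ℤ) (A := 𝓞 K) _ h1
  have hηex : ∀ θ : L, ∃ y : 𝓞 L, θ ∈ gL.roots → ((y : 𝓞 L) : L) = i (lc : K) * θ := by
    intro θ
    by_cases hθ : θ ∈ gL.roots
    · exact ⟨⟨_, hint θ hθ⟩, fun _ => rfl⟩
    · exact ⟨0, fun h => absurd h hθ⟩
  choose η hη using hηex
  have hτi' : ∀ (n : ℕ) x, (τ ^ n) (i x) = i x := by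
    intro n x
    apply hκinj
    rw [hκτn, hκi, AlgEquiv.commutes]
  have hδ : ∀ n : ℕ, ¬ ℓ ∣ n → ∀ θ ∈ gL.roots, (τ ^ n) • (η θ) - η θ ≠ 0 := by
    intro n hn θ hθ h0
    have h1 : (((τ ^ n) • (η θ) - η θ : 𝓞 L) : L) = 0 := by rw [h0]; rfl
    have h2 : (((τ ^ n) • (η θ) - η θ : 𝓞 L) : L) = i (lc : K) * ((τ ^ n) θ - θ) := by
      have h3 : (((τ ^ n) • (η θ) - η θ : 𝓞 L) : L) = (τ ^ n) (η θ) - η θ := rfl
      rw [h3, hη θ hθ, map_mul, hτi']
      ring
    rw [h2, mul_eq_zero] at h1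
    rcases h1 with h1 | h1
    · apply hlc0
      apply RingOfIntegers.coe_injective
      apply i.injective
      rw [h1]
      simp
    · refine hσ n hn (κ θ) ?_ ?_
      · have h2 := hroot θ hθ
        have h3 : (gL.map κ).eval (κ θ) = 0 := by
          rw [eval_map_apply, h2, map_zero]
        rw [hgLκ, eval_map_algebraMap] at h3
        exact h3
      · rw [← hκτn, sub_eq_zero.1 h1]
  -- the bad primes
  have hE1 : iO (c * lc * D) ≠ 0 := by
    rw [Ne, map_eq_zero_iff iO hiinj]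
    exact mul_ne_zero (mul_ne_zero hc hlc0) hD
  have hMex : ∀ x : 𝓞 L, ∃ m : ℕ, 0 < m ∧ (x ≠ 0 → ∀ (k : Type) [Field k] (φ : 𝓞 L →+* k),
      (m : k) ≠ 0 → φ x ≠ 0) := by
    intro x
    by_cases hx : x = 0
    · exact ⟨1, one_pos, fun h => absurd hx h⟩
    · obtain ⟨m, hm, hm'⟩ := nz L x hx
      exact ⟨m, hm, fun _ => hm'⟩
  choose MM hMM hMM' using hMex
  set n0 := orderOf τ with hn0
  set m : ℕ := MM (iO (c * lc * D)) * ∏ θ ∈ gL.roots.toFinset, ∏ j ∈ Finset.range n0,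
    MM ((τ ^ j) • (η θ) - η θ) with hm
  have hmpos : 0 < m := Nat.mul_pos (hMM _) (Finset.prod_pos fun θ _ =>
    Finset.prod_pos fun j _ => hMM _)
  obtain ⟨δ, C', hδpos, hcount⟩ := count L τ m hmpos
  refine ⟨frobSet L τ m, fun p hp => hp.1, ⟨δ, C', hδpos, hcount⟩, ?_⟩
  intro p hp
  obtain ⟨hpp, hpm, hxp⟩ := hp
  have : Fact p.Prime := ⟨hpp⟩
  have hex : ∃ φ : 𝓞 L →+* AlgebraicClosure (ZMod p), HasFrob p φ τ := by
    unfold xp at hxp
    rw [dif_pos hpp] at hxp
    by_contra h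
    push Not at h
    apply hxp
    rw [Nat.card_eq_zero]
    left
    exact ⟨fun x => h x.1 x.2⟩
  obtain ⟨φ, hφ⟩ := hex
  have hcast : ∀ n : ℕ, n ∣ m → (n : AlgebraicClosure (ZMod p)) ≠ 0 := by
    intro n hn h
    rw [CharP.cast_eq_zero_iff (AlgebraicClosure (ZMod p)) p] at h
    exact hpm (h.trans hn)
  have hφE1 : φ (iO (c * lc * D)) ≠ 0 := hMM' _ hE1 _ φ (hcast _ (Dvd.intro _ rfl))
  have hn0pos : 0 < n0 := orderOf_pos τ
  have hφθ : ∀ n : ℕ, ¬ ℓ ∣ n → ∀ θ ∈ gL.roots, φ ((τ ^ n) • (η θ) - η θ) ≠ 0 := by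
    intro n hn θ hθ
    have h0 := hδ n hn θ hθ
    rw [← pow_mod_orderOf τ n] at h0 ⊢
    refine hMM' _ h0 _ φ (hcast _ ?_)
    have h1 : MM ((τ ^ (n % orderOf τ)) • (η θ) - η θ) ∣
        ∏ j ∈ Finset.range n0, MM ((τ ^ j) • (η θ) - η θ) :=
      Finset.dvd_prod_of_mem (fun j => MM ((τ ^ j) • (η θ) - η θ))
        (Finset.mem_range.2 (Nat.mod_lt _ hn0pos))
    exact (h1.trans (Finset.dvd_prod_of_mem (fun θ => ∏ j ∈ Finset.range n0,
      MM ((τ ^ j) • (η θ) - η θ)) (Multiset.mem_toFinset.2 hθ))).trans (Dvd.intro_left _ rfl)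
  have hφn : ∀ (n : ℕ) (x : 𝓞 L), φ ((τ ^ n) • x) = φ x ^ p ^ n := by
    intro n
    induction n with
    | zero => intro x; simp
    | succ n ih =>
      intro x
      rw [pow_succ', mul_smul, hφ, ih, ← pow_mul, pow_succ]
  let ψ : 𝓞 K →+* AlgebraicClosure (ZMod p) := φ.comp iO
  have hψ : ∀ x, ψ x ^ p = ψ x := by
    intro x
    have h1 := hφ (iO x)
    rw [hτO] at h1
    exact h1.symm
  have hψn : ∀ (n : ℕ) x, ψ x ^ p ^ n = ψ x := by
    intro n x
    induction n with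
    | zero => simp
    | succ n ih => rw [pow_succ, pow_mul, ih, hψ]
  have hnorm := absNorm_ker K p (AlgebraicClosure (ZMod p)) ψ hψ
  have hmem : ∀ x, x ∈ RingHom.ker ψ ↔ φ (iO x) = 0 := fun x => RingHom.mem_ker
  have hprime : (RingHom.ker ψ).IsPrime := RingHom.ker_isPrime ψ
  have hbot : RingHom.ker ψ ≠ ⊥ := by
    intro h
    rw [h, Ideal.absNorm_bot] at hnorm
    exact hpp.ne_zero hnorm.symm
  have hmax : (RingHom.ker ψ).IsMaximal := hprime.isMaximal hbot
  have hφ4 : φ (iO c) ≠ 0 ∧ φ (iO lc) ≠ 0 ∧ φ (iO D) ≠ 0 := by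
    rw [map_mul, map_mul, map_mul, map_mul] at hφE1
    refine ⟨?_, ?_, ?_⟩ <;> intro h <;> apply hφE1 <;> rw [h] <;> ring
  obtain ⟨h4c, h4lc, h4D⟩ := hφ4
  refine ⟨⟨RingHom.ker ψ, hprime, hbot⟩, ⟨?_, ?_, ?_, ?_⟩, hnorm⟩
  · exact fun h => h4c ((hmem _).mp h)
  · exact fun h => h4lc ((hmem _).mp h)
  · obtain ⟨y, hy⟩ : ∃ y : 𝓞 K, (Ideal.Quotient.mk (RingHom.ker ψ)) (y * D) = 1 := by
      obtain ⟨y, z, hz, hy⟩ := hmax.exists_inv (fun h => h4D ((hmem _).mp h))
      refine ⟨y, ?_⟩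
      have h6 := congrArg (Ideal.Quotient.mk (RingHom.ker ψ)) hy
      rw [map_add, Ideal.Quotient.eq_zero_iff_mem.mpr hz, add_zero, map_one] at h6
      exact h6
    refine ⟨C (Ideal.Quotient.mk _ y) * u.map (Ideal.Quotient.mk _),
      C (Ideal.Quotient.mk _ y) * w.map (Ideal.Quotient.mk _), ?_⟩
    have h5 := congrArg (Polynomial.map (Ideal.Quotient.mk (RingHom.ker ψ))) huw
    rw [Polynomial.map_add, Polynomial.map_mul, Polynomial.map_mul, map_C] at h5
    rw [derivative_map, mul_assoc, mul_assoc, ← mul_add, h5, ← C_mul, ← map_mul, hy, C_1]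
  · intro n hn
    change IsCoprime (X ^ (Ideal.absNorm (RingHom.ker ψ) ^ n) - X)
      (g.map (Ideal.Quotient.mk (RingHom.ker ψ)))
    rw [hnorm]
    let _ : Field (𝓞 K ⧸ RingHom.ker ψ) := Ideal.Quotient.field _
    let _ : Algebra (𝓞 K ⧸ RingHom.ker ψ) (AlgebraicClosure (ZMod p)) :=
      (RingHom.kerLift ψ).toAlgebra
    have halg : ∀ x : 𝓞 K, algebraMap (𝓞 K ⧸ RingHom.ker ψ) (AlgebraicClosure (ZMod p))
        (Ideal.Quotient.mk _ x) = ψ x := fun x => rfl
    have hcomp : (algebraMap (𝓞 K ⧸ RingHom.ker ψ) (AlgebraicClosure (ZMod p))).comp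
        (Ideal.Quotient.mk (RingHom.ker ψ)) = ψ := by
      ext x
      exact halg x
    refine (Polynomial.isCoprime_iff_aeval_ne_zero_of_isAlgClosed (k := 𝓞 K ⧸ RingHom.ker ψ)
      (AlgebraicClosure (ZMod p)) _ _).2 ?_
    intro a
    by_contra hcon
    rw [not_or, not_not, not_not] at hcon
    obtain ⟨ha1, ha2⟩ := hcon
    rw [map_sub, map_pow, aeval_X, sub_eq_zero] at ha1
    rw [aeval_def, eval₂_map, hcomp] at ha2
    have hfac : gL = C gL.leadingCoeff * (gL.roots.map fun θ => X - C θ).prod :=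
      hspl.eq_prod_roots
    have h2 : C (iO lc) ^ (Multiset.card gL.roots) * g.map iO =
        C (iO lc) * (gL.roots.map fun θ => C (iO lc) * X - C (η θ)).prod := by
      apply Polynomial.map_injective (algebraMap (𝓞 L) L) RingOfIntegers.coe_injective
      have h7 : (g.map iO).map (algebraMap (𝓞 L) L) = gL := by
        rw [hgL, Polynomial.map_map, Polynomial.map_map]
        rfl
      rw [Polynomial.map_mul, Polynomial.map_mul, Polynomial.map_pow, map_C, h7,
        Polynomial.map_multiset_prod, Multiset.map_map]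
      have h8 : (algebraMap (𝓞 L) L) (iO lc) = i (lc : K) := rfl
      have h10 : gL.roots.map ((fun q => Polynomial.map (algebraMap (𝓞 L) L) q) ∘
          fun θ => C (iO lc) * X - C (η θ)) =
          gL.roots.map (fun θ => C (i (lc : K)) * (X - C θ)) := by
        refine Multiset.map_congr rfl fun θ hθ => ?_
        have h11 := hη θ hθ
        change (C (iO lc) * X - C (η θ)).map (algebraMap (𝓞 L) L) = _
        rw [Polynomial.map_sub, Polynomial.map_mul, map_C, map_C, map_X, h8]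
        change C (i (lc : K)) * X - C ((η θ : 𝓞 L) : L) = _
        rw [h11, C_mul]
        ring
      rw [h8, h10, Multiset.prod_map_mul, Multiset.map_const', Multiset.prod_replicate]
      have hfac2 : gL = C (i (lc : K)) * (gL.roots.map fun θ => X - C θ).prod := by
        rw [← hgLlc]
        exact hfac
      have hfac3 : C (i (lc : K)) ^ (Multiset.card gL.roots) * gL =
          C (i (lc : K)) ^ (Multiset.card gL.roots) *
            (C (i (lc : K)) * (gL.roots.map fun θ => X - C θ).prod) :=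
        congrArg (fun q => C (i (lc : K)) ^ (Multiset.card gL.roots) * q) hfac2
      rw [hfac3]
      ring
    have h3 := congrArg (fun q => (q.map φ).eval a) h2
    simp only [Polynomial.map_mul, Polynomial.map_pow, map_C, eval_mul, eval_pow, eval_C] at h3
    have h4 : ((g.map iO).map φ).eval a = 0 := by
      rw [Polynomial.map_map, eval_map]
      exact ha2
    rw [h4, mul_zero, Polynomial.map_multiset_prod, eval_multiset_prod, Multiset.map_map,
      Multiset.map_map] at h3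
    have h5 : ((gL.roots.map (((fun q => eval a q) ∘ (fun q => Polynomial.map φ q)) ∘
        fun θ => C (iO lc) * X - C (η θ)))).prod = 0 := by
      rcases mul_eq_zero.mp h3.symm with h | h
      · exact absurd h h4lc
      · exact h
    rw [Multiset.prod_eq_zero_iff, Multiset.mem_map] at h5
    obtain ⟨θ, hθ, h6⟩ := h5
    have h7 : φ (η θ) = φ (iO lc) * a := by
      have h8 : ((C (iO lc) * X - C (η θ)).map φ).eval a = 0 := h6
      rw [Polynomial.map_sub, Polynomial.map_mul, map_C, map_C, map_X, eval_sub, eval_mul, eval_C,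
        eval_C, eval_X, sub_eq_zero] at h8
      exact h8.symm
    apply hφθ n hn θ hθ
    rw [map_sub, hφn, h7, mul_pow, ha1]
    have h8 := hψn n lc
    change φ (iO lc) ^ p ^ n = φ (iO lc) at h8
    rw [h8, sub_self]

end Pool.Agent.V11235.SF
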