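import Pool.Agent.V11235.SF.Line
import Pool.Agent.V11235.SF.Prim
import Pool.Agent.V11235.SD.Cnt

/-! The number of rational numbers of bounded height which are not close to the classes of a set of
primes of positive lower density. -/

set_option autoImplicit false

namespace Pool.Agent.V11235.SF

open Finset Pool.Agent.V11235.SD

open Classical in
theorem line (S : Set ℕ) (hS : ∀ p ∈ S, p.Prime) (hD : Dense S) :
    ∃ η C : ℝ, 0 < η ∧ 0 ≤ C ∧ ∀ (r : ℕ → ℤ) (B : ℕ), 2 ≤ B → ∀ b : ℤ, b ≠ 0 → |b| ≤ B →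
      (((Icc (-(B : ℤ)) B).filter (fun a => Bad S r a b)).card : ℝ) ≤
        C * (B / (Real.log B) ^ η) := by
  obtain ⟨δ0, C0, hδ0, hD⟩ := hD
  set δ := min δ0 2 with hδdef
  have hδ : 0 < δ := lt_min hδ0 two_pos
  have hD' : ∀ N : ℕ, δ * (∑ n ∈ range N, Set.indicator {p | p.Prime} (fun _ => (1 : ℝ)) n) - C0 ≤
      ∑ n ∈ range N, Set.indicator S (fun _ => (1 : ℝ)) n := by
    intro N
    refine le_trans (sub_le_sub_right ?_ _) (hD N)
    refine mul_le_mul_of_nonneg_right (min_le_left _ _) ?_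
    exact Finset.sum_nonneg fun _ _ => Set.indicator_nonneg (fun _ _ => zero_le_one) _
  obtain ⟨C1, hC1, hsum⟩ := sum_S S hS δ C0 hδ hD'
  obtain ⟨C2, B0, hC2, hlarge⟩ := line_large S hS δ C1 hδ (min_le_right _ _) hsum
  set M : ℝ := (Real.log (B0 + 2)) ^ (δ / 2) with hM
  have hM0 : 0 ≤ M := by
    rw [hM]
    exact Real.rpow_nonneg (Real.log_nonneg (by
      have : (0 : ℝ) ≤ B0 := Nat.cast_nonneg _
      linarith)) _
  refine ⟨δ / 2, C2 + 3 * M, by positivity, by positivity, fun r B hB b hb0 hbB => ?_⟩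
  have hBr : (2 : ℝ) ≤ B := by exact_mod_cast hB
  have hL : 0 < Real.log B := Real.log_pos (by linarith)
  have hX : 0 ≤ (B : ℝ) / (Real.log B) ^ (δ / 2) := by positivity
  rw [add_mul]
  by_cases h : B0 ≤ B
  · have h1 := hlarge r B h b hb0 hbB
    have : 0 ≤ 3 * M * ((B : ℝ) / (Real.log B) ^ (δ / 2)) := by positivity
    linarith
  · have h1 : (((Icc (-(B : ℤ)) B).filter (fun a => Bad S r a b)).card : ℝ) ≤ 3 * B := by
      have h2 : ((Icc (-(B : ℤ)) B).filter (fun a => Bad S r a b)).card ≤ 2 * B + 1 := by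
        refine (Finset.card_filter_le _ _).trans ?_
        rw [Int.card_Icc]
        omega
      have h3 : (((Icc (-(B : ℤ)) B).filter (fun a => Bad S r a b)).card : ℝ) ≤ 2 * B + 1 := by
        exact_mod_cast h2
      linarith
    have h4 : (Real.log B) ^ (δ / 2) ≤ M := by
      rw [hM]
      refine Real.rpow_le_rpow hL.le (Real.log_le_log (by linarith) ?_) (by positivity)
      have : (B : ℝ) ≤ B0 := by
        push Not at h
        exact_mod_cast h.le
      linarith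
    have h5 : 3 * (B : ℝ) ≤ 3 * M * ((B : ℝ) / (Real.log B) ^ (δ / 2)) := by
      rw [mul_div_assoc', le_div_iff₀ (by positivity)]
      nlinarith
    have : 0 ≤ C2 * ((B : ℝ) / (Real.log B) ^ (δ / 2)) := by positivity
    linarith

/-- the good classes in terms of divisibility -/
theorem good_of_not (p : ℕ) (hp : p.Prime) (Θ : ZMod (p ^ 2)) (r a b : ℤ)
    (hr : (r : ZMod (p ^ 2)) = Θ) (hb : ¬ (p : ℤ) ∣ b) (h1 : (p : ℤ) ∣ a - r * b)
    (h2 : ¬ (p : ℤ) ^ 2 ∣ a - r * b) : Good p Θ (a : ZMod (p ^ 2)) (b : ZMod (p ^ 2)) := by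
  have hne : NeZero (p ^ 2) := ⟨pow_ne_zero _ hp.ne_zero⟩
  refine ⟨?_, ?_⟩
  · have h3 : IsCoprime (b : ℤ) ((p ^ 2 : ℕ) : ℤ) := by
      push_cast
      apply IsCoprime.pow_right
      rw [isCoprime_comm]
      exact (Int.isCoprime_iff_gcd_eq_one).2 (by
        rw [Int.gcd_eq_natAbs, Int.natAbs_natCast]
        refine (Nat.Prime.coprime_iff_not_dvd hp).2 fun h => hb ?_
        exact Int.natCast_dvd.2 h)
    obtain ⟨u, v, huv⟩ := h3
    have h4 : ((u : ℤ) : ZMod (p ^ 2)) * b = 1 := by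
      have := congrArg (fun z : ℤ => (z : ZMod (p ^ 2))) huv
      simp only [Int.cast_add, Int.cast_mul, Int.cast_natCast, ZMod.natCast_self, mul_zero,
        add_zero, Int.cast_one] at this
      exact this
    exact IsUnit.of_mul_eq_one_right _ h4
  · obtain ⟨m, hm⟩ := h1
    have hp0 : (0 : ℤ) < p := by exact_mod_cast hp.pos
    have h3 := Int.emod_nonneg m hp0.ne'
    have h4 := Int.emod_lt_of_pos m hp0
    have h5 : m % p ≠ 0 := by
      intro h0
      apply h2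
      obtain ⟨s, hs⟩ := Int.dvd_of_emod_eq_zero h0
      rw [hm, hs]
      exact ⟨s, by ring⟩
    refine ⟨(m % p).toNat, by omega, by omega, ?_⟩
    rw [← hr]
    have h6 : ((a - r * b : ℤ) : ZMod (p ^ 2)) = (((p * (m % p).toNat : ℕ) : ℤ) : ZMod (p ^ 2)) := by
      rw [ZMod.intCast_eq_intCast_iff_dvd_sub]
      push_cast
      rw [Int.toNat_of_nonneg h3, hm]
      obtain ⟨s, hs⟩ : (p : ℤ) ∣ m - m % p := Int.dvd_self_sub_emod
      refine ⟨-s, ?_⟩
      have h7 : (p : ℤ) * (m % p) - p * m = -(p * (m - m % p)) := by ring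
      rw [h7, hs]
      ring
    rw [Int.cast_natCast] at h6
    rw [← h6]
    push_cast
    ring

theorem rat_count (S : Set ℕ) (hS : ∀ p ∈ S, p.Prime) (hD : Dense S) :
    ∃ η C : ℝ, 0 < η ∧ 0 ≤ C ∧ ∀ (Θ : ∀ p : ℕ, ZMod (p ^ 2)) (E : Set ℚ),
      (∀ p ∈ S, ∀ t ∈ E, ¬ Good p (Θ p) (t.num : ZMod (p ^ 2)) ((t.den : ℤ) : ZMod (p ^ 2))) →
      ∀ B : ℕ, 2 ≤ B →
        (Set.ncard {t : ℚ | t ∈ E ∧ |t.num| ≤ B ∧ t.den ≤ B} : ℝ) ≤
          C * ((B : ℝ) ^ 2 / (Real.log B) ^ η) ∧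
        (Set.ncard {n : ℤ | (n : ℚ) ∈ E ∧ |n| ≤ B} : ℝ) ≤ C * (B / (Real.log B) ^ η) := by
  classical
  obtain ⟨η, C, hη, hC, hline⟩ := line S hS hD
  refine ⟨η, C, hη, hC, fun Θ E hE B hB => ?_⟩
  have hr : ∀ p : ℕ, ∃ r : ℤ, (r : ZMod (p ^ 2)) = Θ p := fun p => ZMod.intCast_surjective _
  choose r hr using hr
  have hbad : ∀ t ∈ E, Bad S r t.num t.den := by
    intro t ht p hp hb h1
    by_contra h2
    exact hE p hp t ht (good_of_not p (hS p hp) (Θ p) (r p) t.num t.den (hr p) hb h1 h2)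
  have hden : ∀ b ∈ Icc 1 B, (((Icc (-(B : ℤ)) B).filter (fun a => Bad S r a (b : ℕ))).card : ℝ) ≤
        C * (B / (Real.log B) ^ η) := by
    intro b hb
    rw [Finset.mem_Icc] at hb
    refine hline r B hB b (by omega) ?_
    rw [Nat.abs_cast]
    exact_mod_cast hb.2
  constructor
  · have hsub : {t : ℚ | t ∈ E ∧ |t.num| ≤ B ∧ t.den ≤ B} ⊆
        (((Icc 1 B).sigma (fun b : ℕ => (Icc (-(B : ℤ)) B).filter (fun a => Bad S r a b))).image
          (fun x : (Σ _ : ℕ, ℤ) => (x.2 : ℚ) / x.1) : Finset ℚ) := by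
      rintro t ⟨ht, h1, h2⟩
      rw [Finset.mem_coe, Finset.mem_image]
      refine ⟨⟨t.den, t.num⟩, ?_, Rat.num_div_den t⟩
      rw [Finset.mem_sigma, Finset.mem_Icc, Finset.mem_filter, Finset.mem_Icc]
      exact ⟨⟨t.den_pos, h2⟩, abs_le.1 h1, hbad t ht⟩
    have h1 := Set.ncard_le_ncard hsub (Finset.finite_toSet _)
    rw [Set.ncard_coe_finset] at h1
    have h2 := h1.trans Finset.card_image_le
    rw [Finset.card_sigma] at h2
    have h3 : (Set.ncard {t : ℚ | t ∈ E ∧ |t.num| ≤ B ∧ t.den ≤ B} : ℝ) ≤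
        ∑ b ∈ Icc 1 B, (((Icc (-(B : ℤ)) B).filter (fun a => Bad S r a (b : ℕ))).card : ℝ) := by
      exact_mod_cast h2
    refine h3.trans ((Finset.sum_le_sum hden).trans ?_)
    rw [Finset.sum_const, Nat.card_Icc, nsmul_eq_mul]
    have h4 : ((B + 1 - 1 : ℕ) : ℝ) = B := by norm_num
    rw [h4]
    apply le_of_eq
    ring
  · have hsub : {n : ℤ | (n : ℚ) ∈ E ∧ |n| ≤ B} ⊆
        (((Icc (-(B : ℤ)) B).filter (fun a => Bad S r a (1 : ℕ)) : Finset ℤ) : Set ℤ) := by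
      rintro n ⟨hn, h1⟩
      rw [Finset.mem_coe, Finset.mem_filter, Finset.mem_Icc]
      refine ⟨abs_le.1 h1, ?_⟩
      have := hbad n hn
      rwa [Rat.num_intCast, Rat.den_intCast] at this
    have h1 := Set.ncard_le_ncard hsub (Finset.finite_toSet _)
    rw [Set.ncard_coe_finset] at h1
    refine le_trans ?_ (hden 1 (Finset.mem_Icc.2 ⟨le_rfl, by omega⟩))
    exact_mod_cast h1

end Pool.Agent.V11235.SF
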