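import Mathlib
import Pool.Agent.Erdos456.Mertens
import Pool.Agent.H304R2.EC.MertAbs

/-! Sums of the reciprocals of the primes in a set of positive lower density. -/

set_option autoImplicit false

namespace Pool.Agent.V11235.SF

open Finset

theorem sum_S (S : Set ℕ) [DecidablePred (· ∈ S)] (hS : ∀ p ∈ S, p.Prime) (δ C : ℝ) (hδ : 0 < δ)
    (hD : ∀ N : ℕ, δ * (∑ n ∈ range N, Set.indicator {p | p.Prime} (fun _ => (1 : ℝ)) n) - C ≤
      ∑ n ∈ range N, Set.indicator S (fun _ => (1 : ℝ)) n) :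
    ∃ C' : ℝ, 0 ≤ C' ∧ ∀ N : ℕ, 3 ≤ N → δ * Real.log (Real.log N) - C' ≤
      ∑ p ∈ (Icc 1 N).filter (· ∈ S), (1 : ℝ) / p := by
  obtain ⟨C1, hC1⟩ := Pool.Agent.Erdos456.Mert.mertens_inv
  have hC10 : 0 ≤ C1 := (abs_nonneg _).trans (hC1 3 le_rfl)
  refine ⟨δ * C1 + |C|, by positivity, fun N hN => ?_⟩
  set w : ℕ → ℝ := fun n => 1 / (n : ℝ) with hw
  set aS : ℕ → ℝ := Set.indicator S (fun _ => (1 : ℝ)) with haS
  set aP : ℕ → ℝ := Set.indicator {p | p.Prime} (fun _ => (1 : ℝ)) with haP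
  have hrange : ∀ (a : ℕ → ℝ), a 0 = 0 → ∀ n : ℕ, ∑ k ∈ Icc 1 n, a k = ∑ k ∈ range (n + 1), a k := by
    intro a ha n
    rw [Finset.range_eq_Ico, Finset.sum_eq_sum_Ico_succ_bot (by omega), ha, zero_add]
    rfl
  have h0S : aS 0 = 0 := Set.indicator_of_notMem (fun h => Nat.not_prime_zero (hS 0 h)) _
  have h0P : aP 0 = 0 := Set.indicator_of_notMem (fun h => Nat.not_prime_zero h) _
  have hA : ∀ n : ℕ, δ * ∑ k ∈ Icc 1 n, aP k - C ≤ ∑ k ∈ Icc 1 n, aS k := by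
    intro n
    rw [hrange aS h0S, hrange aP h0P]
    exact hD (n + 1)
  have hwpos : ∀ n : ℕ, 1 ≤ n → 0 ≤ w n - w (n + 1) := by
    intro n hn
    have hn' : (0 : ℝ) < n := by exact_mod_cast hn
    rw [hw]
    simp only
    rw [sub_nonneg]
    apply one_div_le_one_div_of_le hn'
    push_cast
    linarith
  have htel : ∑ n ∈ Icc 1 N, (w n - w (n + 1)) + w (N + 1) = 1 := by
    have h1 := Pool.Agent.H304R2.EC.MertAbs.abel (fun n => if n = 1 then (1 : ℝ) else 0) w N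
    have h2 : ∀ n ∈ Icc 1 N, ∑ k ∈ Icc 1 n, (if k = 1 then (1 : ℝ) else 0) = 1 := by
      intro n hn
      rw [Finset.sum_ite_eq' (Icc 1 n) 1, if_pos (Finset.mem_Icc.2 ⟨le_rfl, (Finset.mem_Icc.1 hn).1⟩)]
    have h3 : ∑ n ∈ Icc 1 N, (if n = 1 then (1 : ℝ) else 0) * w n = 1 := by
      have h4 : ∀ n ∈ Icc 1 N, (if n = 1 then (1 : ℝ) else 0) * w n =
          if n = 1 then 1 else 0 := by
        intro n _
        split_ifs with h
        · rw [h, hw]; norm_num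
        · ring
      rw [Finset.sum_congr rfl h4]
      exact h2 N (Finset.mem_Icc.2 ⟨by omega, le_rfl⟩)
    rw [h3, h2 N (Finset.mem_Icc.2 ⟨by omega, le_rfl⟩)] at h1
    rw [one_mul] at h1
    rw [h1]
    congr 1
    refine Finset.sum_congr rfl fun n hn => ?_
    rw [h2 n hn, one_mul]
  have hsumS : ∑ p ∈ (Icc 1 N).filter (· ∈ S), (1 : ℝ) / p = ∑ n ∈ Icc 1 N, aS n * w n := by
    rw [Finset.sum_filter]
    refine Finset.sum_congr rfl fun n _ => ?_
    by_cases h : n ∈ S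
    · rw [if_pos h, haS, Set.indicator_of_mem h, one_mul]
    · rw [if_neg h, haS, Set.indicator_of_notMem h, zero_mul]
  have hsumP : ∑ p ∈ (Icc 1 N).filter Nat.Prime, (1 : ℝ) / p = ∑ n ∈ Icc 1 N, aP n * w n := by
    rw [Finset.sum_filter]
    refine Finset.sum_congr rfl fun n _ => ?_
    by_cases h : n.Prime
    · rw [if_pos h, haP, Set.indicator_of_mem (show n ∈ {p | p.Prime} from h), one_mul]
    · rw [if_neg h, haP, Set.indicator_of_notMem (show n ∉ {p | p.Prime} from h), zero_mul]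
  have key : δ * ∑ n ∈ Icc 1 N, aP n * w n - C ≤ ∑ n ∈ Icc 1 N, aS n * w n := by
    rw [Pool.Agent.H304R2.EC.MertAbs.abel aS w N, Pool.Agent.H304R2.EC.MertAbs.abel aP w N]
    have h1 : ∑ n ∈ Icc 1 N, (δ * ∑ k ∈ Icc 1 n, aP k - C) * (w n - w (n + 1)) ≤
        ∑ n ∈ Icc 1 N, (∑ k ∈ Icc 1 n, aS k) * (w n - w (n + 1)) :=
      Finset.sum_le_sum fun n hn =>
        mul_le_mul_of_nonneg_right (hA n) (hwpos n (Finset.mem_Icc.1 hn).1)
    have h2 : (δ * ∑ k ∈ Icc 1 N, aP k - C) * w (N + 1) ≤ (∑ k ∈ Icc 1 N, aS k) * w (N + 1) :=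
      mul_le_mul_of_nonneg_right (hA N) (by rw [hw]; positivity)
    have h3 : ∑ n ∈ Icc 1 N, (δ * ∑ k ∈ Icc 1 n, aP k - C) * (w n - w (n + 1)) =
        δ * ∑ n ∈ Icc 1 N, (∑ k ∈ Icc 1 n, aP k) * (w n - w (n + 1)) -
          C * ∑ n ∈ Icc 1 N, (w n - w (n + 1)) := by
      rw [Finset.mul_sum, Finset.mul_sum, ← Finset.sum_sub_distrib]
      refine Finset.sum_congr rfl fun n _ => ?_
      ring
    rw [h3] at h1
    have h4 : C * ∑ n ∈ Icc 1 N, (w n - w (n + 1)) + C * w (N + 1) = C := by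
      rw [← mul_add, htel, mul_one]
    nlinarith
  rw [hsumS]
  have h5 := (abs_le.1 (hC1 N hN)).1
  rw [hsumP] at h5
  have h6 : δ * Real.log (Real.log N) - δ * C1 ≤ δ * ∑ n ∈ Icc 1 N, aP n * w n := by
    rw [← mul_sub]
    exact mul_le_mul_of_nonneg_left (by linarith) hδ.le
  have h7 := le_abs_self C
  linarith

end Pool.Agent.V11235.SF
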