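import Pool.Agent.V11235.SF.Sieve

/-! The number of bad parameters on a line. -/

set_option autoImplicit false

namespace Pool.Agent.V11235.SF

open Finset Pool.Agent.H373R2.T7

/-- `a/b` is not close to the class of `r p`, for all `p ∈ S` -/
def Bad (S : Set ℕ) (r : ℕ → ℤ) (a b : ℤ) : Prop :=
  ∀ p ∈ S, ¬ (p : ℤ) ∣ b → (p : ℤ) ∣ a - r p * b → (p : ℤ) ^ 2 ∣ a - r p * b

open Classical in
theorem split_count (S : Set ℕ) (r : ℕ → ℤ) (y0 y B : ℕ) (hy0 : 0 < y0) (b : ℤ) :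
    (((Icc (-(B : ℤ)) B).filter (fun a => Bad S r a b)).card : ℝ) ≤
      (((Icc 1 (2 * B + 1)).filter (fun n : ℕ => ∀ p ∈ pz y, ¬ QQ S r y0 B b p n)).card : ℝ) +
        ((2 * B + 1) / y0 + y) := by
  have hsub : (Icc (-(B : ℤ)) B).filter (fun a => Bad S r a b) ⊆
      (((Icc 1 (2 * B + 1)).filter (fun n : ℕ => ∀ p ∈ pz y, ¬ QQ S r y0 B b p n)).image
        (fun n : ℕ => (n : ℤ) - (B + 1))) ∪
      ((Ioc y0 y).biUnion fun p => (Icc (-(B : ℤ)) B).filter
        (fun a => ((p ^ 2 : ℕ) : ℤ) ∣ a - r p * b)) := by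
    intro a ha
    rw [Finset.mem_filter, Finset.mem_Icc] at ha
    obtain ⟨⟨ha1, ha2⟩, hbad⟩ := ha
    rw [Finset.mem_union]
    by_cases h : ∀ p ∈ pz y, ¬ QQ S r y0 B b p (a + (B + 1)).toNat
    · left
      rw [Finset.mem_image]
      refine ⟨(a + (B + 1)).toNat, ?_, ?_⟩
      · rw [Finset.mem_filter, Finset.mem_Icc]
        exact ⟨⟨by omega, by omega⟩, h⟩
      · rw [Int.toNat_of_nonneg (by omega)]
        ring
    · right
      push Not at h
      obtain ⟨p, hp, hpS, hpy, hpb, hdvd⟩ := h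
      rw [Int.toNat_of_nonneg (by omega)] at hdvd
      rw [show a + (B + 1) - (B + 1) - r p * b = a - r p * b by ring] at hdvd
      rw [Finset.mem_biUnion]
      refine ⟨p, Finset.mem_Ioc.2 ⟨hpy, (mem_pz.1 hp).1⟩, ?_⟩
      rw [Finset.mem_filter, Finset.mem_Icc]
      refine ⟨⟨ha1, ha2⟩, ?_⟩
      push_cast
      exact hbad p hpS hpb hdvd
  have h1 := (Finset.card_le_card hsub).trans (Finset.card_union_le _ _)
  have h2 := h1.trans (add_le_add Finset.card_image_le Finset.card_biUnion_le)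
  have h3 : (((Icc (-(B : ℤ)) B).filter (fun a => Bad S r a b)).card : ℝ) ≤
      (((Icc 1 (2 * B + 1)).filter (fun n : ℕ => ∀ p ∈ pz y, ¬ QQ S r y0 B b p n)).card : ℝ) +
      ∑ p ∈ Ioc y0 y, (((Icc (-(B : ℤ)) B).filter
        (fun a => ((p ^ 2 : ℕ) : ℤ) ∣ a - r p * b)).card : ℝ) := by
    exact_mod_cast h2
  refine h3.trans (add_le_add le_rfl ?_)
  have h4 : ∀ p ∈ Ioc y0 y, (((Icc (-(B : ℤ)) B).filter
        (fun a => ((p ^ 2 : ℕ) : ℤ) ∣ a - r p * b)).card : ℝ) ≤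
      (2 * B + 1) * ((p : ℝ) ^ 2)⁻¹ + 1 := by
    intro p hp
    have hp0 : 0 < p := by
      have := (Finset.mem_Ioc.1 hp).1
      omega
    have := class_count B (p ^ 2) (pow_pos hp0 2) (r p * b)
    push_cast at this ⊢
    rwa [div_eq_mul_inv] at this
  refine (Finset.sum_le_sum h4).trans ?_
  rw [Finset.sum_add_distrib, ← Finset.mul_sum]
  refine add_le_add ?_ ?_
  · rw [div_eq_mul_inv]
    refine mul_le_mul_of_nonneg_left ?_ (by positivity)
    by_cases hy : y0 ≤ y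
    · refine (sum_Ioc_inv_sq_le_sub hy0.ne' hy).trans ?_
      have : (0 : ℝ) ≤ (y : ℝ)⁻¹ := by positivity
      linarith
    · rw [Finset.Ioc_eq_empty (by omega), Finset.sum_empty]
      positivity
  · rw [Finset.sum_const, Nat.card_Ioc, nsmul_eq_mul, mul_one]
    exact_mod_cast Nat.sub_le y y0

open Classical in
theorem line_large (S : Set ℕ) (hS : ∀ p ∈ S, p.Prime) (δ C1 : ℝ) (hδ : 0 < δ) (hδ2 : δ ≤ 2)
    (hsum : ∀ N : ℕ, 3 ≤ N → δ * Real.log (Real.log N) - C1 ≤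
      ∑ p ∈ (Icc 1 N).filter (· ∈ S), (1 : ℝ) / p) :
    ∃ (C2 : ℝ) (B0 : ℕ), 0 ≤ C2 ∧ ∀ (r : ℕ → ℤ) (B : ℕ), B0 ≤ B → ∀ b : ℤ, b ≠ 0 → |b| ≤ B →
      (((Icc (-(B : ℤ)) B).filter (fun a => Bad S r a b)).card : ℝ) ≤
        C2 * (B / (Real.log B) ^ (δ / 2)) := by
  obtain ⟨K, x0, hK, hfund⟩ := sys_fund 1 le_rfl 1 one_pos
  obtain ⟨C3, hC3⟩ := Pool.Agent.Erdos456.Mert.mertens_inv
  set κ : ℝ := 1 / ((K : ℝ) + 1) with hκ
  have hKr : (1 : ℝ) ≤ K := by exact_mod_cast hK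
  have hκ0 : 0 < κ := by rw [hκ]; positivity
  have hκ1 : κ ≤ 1 / 2 := by
    rw [hκ]
    apply one_div_le_one_div_of_le (by norm_num)
    linarith
  -- the constants
  set C4 : ℝ := C1 + C3 + 2 + δ * (-Real.log (κ / 2)) + δ / 2 * Real.log 2 - 1 - Real.log (δ / 2)
    with hC4
  have hev : ∀ᶠ B : ℕ in Filter.atTop, 3 ≤ Real.log B ∧ (2 : ℝ) ≤ (B : ℝ) ^ (κ / 2) ∧
      (x0 : ℝ) + 3 ≤ (B : ℝ) ^ (κ / 2) := by
    have hB : Filter.Tendsto (fun B : ℕ => (B : ℝ)) Filter.atTop Filter.atTop :=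
      tendsto_natCast_atTop_atTop
    have h1 : Filter.Tendsto (fun B : ℕ => Real.log B) Filter.atTop Filter.atTop :=
      Real.tendsto_log_atTop.comp hB
    have h2 : Filter.Tendsto (fun B : ℕ => (B : ℝ) ^ (κ / 2)) Filter.atTop Filter.atTop :=
      (tendsto_rpow_atTop (by positivity)).comp hB
    exact (h1.eventually_ge_atTop 3).and ((h2.eventually_ge_atTop 2).and
      (h2.eventually_ge_atTop _))
  obtain ⟨B0, hB0⟩ := Filter.eventually_atTop.1 hev
  refine ⟨6 * Real.exp C4 + 7, max B0 1, by positivity, fun r B hB b hb0 hbB => ?_⟩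
  obtain ⟨hL3, hB2, hBx⟩ := hB0 B ((le_max_left _ _).trans hB)
  have hB1 : 1 ≤ B := (le_max_right _ _).trans hB
  have hBr : (1 : ℝ) ≤ B := by exact_mod_cast hB1
  have hBpos : (0 : ℝ) < B := by linarith
  set L := Real.log B with hL
  have hLpos : 0 < L := by linarith
  -- `y0` and `y`
  set y0 := ⌈L⌉₊ with hy0
  set y := ⌊(B : ℝ) ^ κ⌋₊ with hy
  have hy0L : L ≤ y0 := Nat.le_ceil _
  have hy0L2 : (y0 : ℝ) ≤ 2 * L := by
    have := Nat.ceil_lt_add_one hLpos.le
    linarith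
  have hy03 : 3 ≤ y0 := by
    have : (3 : ℝ) ≤ y0 := by linarith
    exact_mod_cast this
  have hpowκ : ((B : ℝ) ^ (κ / 2)) * ((B : ℝ) ^ (κ / 2)) = (B : ℝ) ^ κ := by
    rw [← Real.rpow_add hBpos]
    congr 1
    ring
  have hy_low : (B : ℝ) ^ (κ / 2) ≤ y := by
    have h1 : (B : ℝ) ^ κ < y + 1 := Nat.lt_floor_add_one _
    have h2 : (B : ℝ) ^ (κ / 2) + 1 ≤ (B : ℝ) ^ κ := by
      rw [← hpowκ]
      nlinarith
    linarith
  have hy_up : (y : ℝ) ≤ (B : ℝ) ^ κ := Nat.floor_le (by positivity)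
  have hyx : x0 + 3 ≤ y := by
    have : ((x0 + 3 : ℕ) : ℝ) ≤ y := by
      push_cast
      linarith
    exact_mod_cast this
  have hy1 : (1 : ℝ) ≤ y := by
    have : (1 : ℝ) ≤ (B : ℝ) ^ (κ / 2) := by linarith
    linarith
  have hyK1 : (y : ℝ) ^ (K + 1) ≤ B := by
    calc (y : ℝ) ^ (K + 1) ≤ ((B : ℝ) ^ κ) ^ (K + 1) := pow_le_pow_left₀ (by linarith) hy_up _
      _ = B := by
        rw [← Real.rpow_natCast, ← Real.rpow_mul hBpos.le, hκ]
        have : 1 / ((K : ℝ) + 1) * ((K + 1 : ℕ) : ℝ) = 1 := by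
          push_cast
          field_simp
        rw [this, Real.rpow_one]
  have hyK : y ^ K ≤ B := by
    have h1 : (y : ℝ) ^ K ≤ B := by
      refine le_trans ?_ hyK1
      rw [pow_succ]
      exact le_mul_of_one_le_right (by positivity) hy1
    exact_mod_cast h1
  have hysq : (y : ℝ) ≤ √(B : ℝ) := by
    apply Real.le_sqrt_of_sq_le
    refine le_trans ?_ hyK1
    exact pow_le_pow_right₀ hy1 (by omega)
  have hsqrt : √(B : ℝ) ≤ 2 * (B / L) := by
    have hs0 : 0 < √(B : ℝ) := Real.sqrt_pos.2 hBpos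
    have h1 : L = 2 * Real.log (√(B : ℝ)) := by
      rw [Real.log_sqrt hBpos.le]
      ring
    have h2 := Real.log_le_sub_one_of_pos hs0
    have h3 : L ≤ 2 * √(B : ℝ) := by linarith
    have h4 : √(B : ℝ) * √(B : ℝ) = B := Real.mul_self_sqrt hBpos.le
    rw [mul_div_assoc', le_div_iff₀ hLpos]
    nlinarith
  -- the sieve
  have hsv := hfund B y (by omega) hyK (QQ S r y0 B b) (perB S r y0 B b) (2 * B + 1)
  have hsplit := split_count S r y0 y B (by omega) b
  have hprod := prod_bound S hS r y0 y B b hb0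
  set V := ∏ p ∈ pz y, (1 - (nuB (QQ S r y0 B b) p : ℝ) / p) with hV
  have hcard := (abs_le.1 hsv).2
  -- the sums
  have hs1 := hsum y (by omega)
  have hs2 := (abs_le.1 (hC3 y0 hy03)).2
  have hs3 : ∑ p ∈ b.natAbs.primeFactors.filter (fun p => y0 < p), (1 : ℝ) / p ≤ 2 := by
    have h1 : ∑ p ∈ b.natAbs.primeFactors.filter (fun p => y0 < p), (1 : ℝ) / p ≤
        ∑ _p ∈ b.natAbs.primeFactors.filter (fun p => y0 < p), 1 / (y0 : ℝ) := by
      refine Finset.sum_le_sum fun p hp => ?_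
      have h2 := (Finset.mem_filter.1 hp).2
      apply one_div_le_one_div_of_le (by linarith)
      exact_mod_cast h2.le
    refine h1.trans ?_
    rw [Finset.sum_const, nsmul_eq_mul, mul_one_div, div_le_iff₀ (by linarith)]
    have h3 : ((b.natAbs.primeFactors.filter (fun p => y0 < p)).card : ℝ) ≤
        b.natAbs.primeFactors.card := by
      exact_mod_cast Finset.card_filter_le _ _
    have h4 := two_pow_card b.natAbs (Int.natAbs_ne_zero.2 hb0)
    have h5 : b.natAbs ≤ B := by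
      have : (b.natAbs : ℤ) ≤ B := by rwa [Int.natCast_natAbs]
      exact_mod_cast this
    have h6 : (2 : ℝ) ^ b.natAbs.primeFactors.card ≤ B := by exact_mod_cast h4.trans h5
    have h7 : (b.natAbs.primeFactors.card : ℝ) * Real.log 2 ≤ L := by
      have := Real.log_le_log (by positivity) h6
      rwa [Real.log_pow] at this
    have h8 : (0.5 : ℝ) ≤ Real.log 2 := by
      have := Real.log_two_gt_d9
      linarith
    have h9 : (0 : ℝ) ≤ b.natAbs.primeFactors.card := Nat.cast_nonneg _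
    nlinarith
  -- the logarithms
  have hlogy : κ / 2 * L ≤ Real.log y := by
    have h1 := Real.log_le_log (by positivity) hy_low
    rwa [Real.log_rpow hBpos] at h1
  have hLL1 : Real.log (κ / 2) + Real.log L ≤ Real.log (Real.log y) := by
    rw [← Real.log_mul (by positivity) hLpos.ne']
    exact Real.log_le_log (by positivity) hlogy
  have hLL2 : Real.log (Real.log y0) ≤ δ / 2 * (Real.log 2 + Real.log L) - 1 - Real.log (δ / 2) := by
    have h1 : Real.log y0 ≤ Real.log 2 + Real.log L := by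
      rw [← Real.log_mul (by norm_num) hLpos.ne']
      exact Real.log_le_log (by linarith) hy0L2
    have h2 : 0 < Real.log y0 := Real.log_pos (by linarith)
    have h3 : Real.log (Real.log y0) ≤ Real.log (Real.log 2 + Real.log L) :=
      Real.log_le_log h2 h1
    have h4 : 0 < Real.log 2 + Real.log L := by linarith
    have h5 := Real.log_le_sub_one_of_pos (show 0 < δ / 2 * (Real.log 2 + Real.log L) by positivity)
    rw [Real.log_mul (by positivity) h4.ne'] at h5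
    linarith
  have hexp : -(∑ p ∈ (Icc 1 y).filter (· ∈ S), (1 : ℝ) / p) +
        ∑ p ∈ (Icc 1 y0).filter Nat.Prime, (1 : ℝ) / p +
        ∑ p ∈ b.natAbs.primeFactors.filter (fun p => y0 < p), (1 : ℝ) / p ≤
      C4 - δ / 2 * Real.log L := by
    have h1 : δ * (Real.log (κ / 2) + Real.log L) ≤ δ * Real.log (Real.log y) :=
      mul_le_mul_of_nonneg_left hLL1 hδ.le
    rw [hC4]
    nlinarith
  have hVb : V ≤ Real.exp C4 / L ^ (δ / 2) := by
    refine hprod.trans ?_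
    refine (Real.exp_le_exp.2 hexp).trans ?_
    rw [Real.exp_sub, Real.rpow_def_of_pos hLpos, mul_comm (Real.log L)]
  have hLδ : 0 < L ^ (δ / 2) := by positivity
  have hLδ1 : L ^ (δ / 2) ≤ L := by
    calc L ^ (δ / 2) ≤ L ^ (1 : ℝ) := Real.rpow_le_rpow_of_exponent_le (by linarith) (by linarith)
      _ = L := Real.rpow_one L
  have hBL : B / L ≤ B / L ^ (δ / 2) := div_le_div_of_nonneg_left hBpos.le hLδ hLδ1
  have hBy0 : (2 * (B : ℝ) + 1) / y0 ≤ 3 * (B / L) := by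
    rw [mul_div_assoc', div_le_div_iff₀ (by linarith) hLpos]
    nlinarith
  have hmain : 2 * ((2 * B + 1 : ℝ) * V) ≤ 6 * Real.exp C4 * (B / L ^ (δ / 2)) := by
    have h1 : (2 * B + 1 : ℝ) * V ≤ (2 * B + 1) * (Real.exp C4 / L ^ (δ / 2)) :=
      mul_le_mul_of_nonneg_left hVb (by positivity)
    have h2 : (2 * B + 1 : ℝ) * (Real.exp C4 / L ^ (δ / 2)) ≤
        3 * B * (Real.exp C4 / L ^ (δ / 2)) :=
      mul_le_mul_of_nonneg_right (by linarith) (by positivity)
    have h3 : 3 * (B : ℝ) * (Real.exp C4 / L ^ (δ / 2)) = 3 * Real.exp C4 * (B / L ^ (δ / 2)) := by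
      ring
    linarith
  push_cast at hcard hsplit
  nlinarith

end Pool.Agent.V11235.SF
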