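import Pool.Agent.V11235.SF.Ana
import Pool.Agent.H373R2.T7.Fund

/-! A sieve by one class for each prime of a set of positive lower density. -/

set_option autoImplicit false

namespace Pool.Agent.V11235.SF

open Finset Pool.Agent.H373R2.T7

/-- number of integers of an interval in a class -/
theorem class_count (B m : ℕ) (hm : 0 < m) (c : ℤ) :
    (((Icc (-(B : ℤ)) B).filter (fun a => (m : ℤ) ∣ a - c)).card : ℝ) ≤ (2 * B + 1) / m + 1 := by
  have h1 : (Icc (-(B : ℤ)) B).filter (fun a => (m : ℤ) ∣ a - c) =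
      (Ioc (-(B : ℤ) - 1) B).filter (fun a => a ≡ c [ZMOD m]) := by
    ext a
    simp only [Finset.mem_filter, Finset.mem_Icc, Finset.mem_Ioc]
    rw [show (a ≡ c [ZMOD m]) ↔ (m : ℤ) ∣ a - c from by
      rw [Int.modEq_iff_dvd]
      constructor
      · intro h
        have := dvd_neg.2 h
        rwa [neg_sub] at this
      · intro h
        have := dvd_neg.2 h
        rwa [neg_sub] at this]
    constructor
    · rintro ⟨⟨h1, h2⟩, h3⟩
      exact ⟨⟨by omega, h2⟩, h3⟩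
    · rintro ⟨⟨h1, h2⟩, h3⟩
      exact ⟨⟨by omega, h2⟩, h3⟩
  have hm' : (0 : ℤ) < m := by exact_mod_cast hm
  have h2 := Int.Ioc_filter_modEq_card (-(B : ℤ) - 1) B hm' c
  rw [h1]
  have hmq : (0 : ℚ) < m := by exact_mod_cast hm
  have h3 : ((⌊(((B : ℤ) : ℚ) - c) / ((m : ℤ) : ℚ)⌋ : ℤ) : ℚ) ≤ (((B : ℤ) : ℚ) - c) / ((m : ℤ) : ℚ) :=
    Int.floor_le _
  have h4 : ((((-(B : ℤ) - 1 : ℤ) : ℚ) - c) / ((m : ℤ) : ℚ)) <
      (⌊(((-(B : ℤ) - 1 : ℤ) : ℚ) - c) / ((m : ℤ) : ℚ)⌋ : ℤ) + 1 := Int.lt_floor_add_one _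
  have h5 : ((((Ioc (-(B : ℤ) - 1) B).filter (fun a => a ≡ c [ZMOD m])).card : ℤ) : ℚ) ≤
      (2 * B + 1) / m + 1 := by
    rw [h2]
    rw [Int.cast_max]
    apply max_le
    · rw [Int.cast_sub]
      have h6 : (((B : ℤ) : ℚ) - c) / ((m : ℤ) : ℚ) -
          ((((-(B : ℤ) - 1 : ℤ) : ℚ) - c) / ((m : ℤ) : ℚ)) = (2 * B + 1) / m := by
        rw [← sub_div]
        push_cast
        ring
      linarith
    · push_cast
      positivity
  have h6 : ((((Ioc (-(B : ℤ) - 1) B).filter (fun a => a ≡ c [ZMOD m])).card : ℚ) : ℝ) ≤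
      (((2 * B + 1) / m + 1 : ℚ) : ℝ) := by
    exact_mod_cast h5
  push_cast at h6
  exact h6

theorem two_pow_card (b : ℕ) (hb : b ≠ 0) : 2 ^ b.primeFactors.card ≤ b := by
  refine le_trans ?_ (Nat.le_of_dvd (Nat.pos_of_ne_zero hb) (Nat.prod_primeFactors_dvd b))
  rw [← Finset.prod_const]
  exact Finset.prod_le_prod' fun p hp => (Nat.prime_of_mem_primeFactors hp).two_le

/-- the sieving conditions -/
def QQ (S : Set ℕ) (r : ℕ → ℤ) (y0 B : ℕ) (b : ℤ) (p n : ℕ) : Prop :=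
  p ∈ S ∧ y0 < p ∧ ¬ (p : ℤ) ∣ b ∧ (p : ℤ) ∣ ((n : ℤ) - (B + 1)) - r p * b

theorem perB (S : Set ℕ) (r : ℕ → ℤ) (y0 B : ℕ) (b : ℤ) : PerB (QQ S r y0 B b) 1 := by
  classical
  have hper : ∀ p n, QQ S r y0 B b p n ↔ QQ S r y0 B b p (n % p) := by
    intro p n
    unfold QQ
    have h1 : (p : ℤ) ∣ (n : ℤ) - ((n % p : ℕ) : ℤ) := by
      rw [Int.natCast_mod]
      exact Int.dvd_self_sub_emod
    have h2 : ((p : ℤ) ∣ ((n : ℤ) - (B + 1)) - r p * b) ↔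
        ((p : ℤ) ∣ (((n % p : ℕ) : ℤ) - (B + 1)) - r p * b) := by
      have h3 : ((n : ℤ) - (B + 1)) - r p * b = ((((n % p : ℕ) : ℤ) - (B + 1)) - r p * b) +
        ((n : ℤ) - ((n % p : ℕ) : ℤ)) := by ring
      rw [h3]
      exact dvd_add_left h1
    rw [h2]
  refine ⟨hper, fun p hp => ?_⟩
  unfold nuB
  rw [Finset.card_le_one]
  intro x hx z hz
  rw [Finset.mem_filter, Finset.mem_range] at hx hz
  obtain ⟨hx1, -, -, -, hx2⟩ := hx
  obtain ⟨hz1, -, -, -, hz2⟩ := hz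
  have h1 : (p : ℤ) ∣ (x : ℤ) - z := by
    have := dvd_sub hx2 hz2
    rwa [show ((x : ℤ) - (B + 1)) - r p * b - (((z : ℤ) - (B + 1)) - r p * b) = (x : ℤ) - z by
      ring] at this
  have h2 : |(x : ℤ) - z| < p := by
    rw [abs_lt]
    constructor <;> omega
  have h3 := Int.eq_zero_of_abs_lt_dvd h1 h2
  omega

theorem nuB_ge (S : Set ℕ) (r : ℕ → ℤ) (y0 B : ℕ) (b : ℤ) (p : ℕ) (hp : p.Prime) (hS : p ∈ S)
    (hy : y0 < p) (hb : ¬ (p : ℤ) ∣ b) : 1 ≤ nuB (QQ S r y0 B b) p := by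
  classical
  unfold nuB
  rw [Nat.one_le_iff_ne_zero, Ne, Finset.card_eq_zero, ← Ne, ← Finset.nonempty_iff_ne_empty]
  have hp0 : (0 : ℤ) < p := by exact_mod_cast hp.pos
  have h1 := Int.emod_nonneg ((B : ℤ) + 1 + r p * b) hp0.ne'
  have h2 := Int.emod_lt_of_pos ((B : ℤ) + 1 + r p * b) hp0
  refine ⟨(((B : ℤ) + 1 + r p * b) % p).toNat, ?_⟩
  rw [Finset.mem_filter, Finset.mem_range]
  refine ⟨by omega, hS, hy, hb, ?_⟩
  rw [Int.toNat_of_nonneg h1]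
  have h3 : (p : ℤ) ∣ ((B : ℤ) + 1 + r p * b) - ((B : ℤ) + 1 + r p * b) % p :=
    Int.dvd_self_sub_emod
  have h4 := dvd_neg.2 h3
  have h5 : -(((B : ℤ) + 1 + r p * b) - ((B : ℤ) + 1 + r p * b) % p) =
      (((B : ℤ) + 1 + r p * b) % p - (B + 1)) - r p * b := by ring
  rwa [h5] at h4

theorem sum_union_le' {ι : Type*} [DecidableEq ι] (A B : Finset ι) (f : ι → ℝ) (hf : ∀ i, 0 ≤ f i) :
    ∑ i ∈ A ∪ B, f i ≤ ∑ i ∈ A, f i + ∑ i ∈ B, f i := by
  rw [← Finset.sum_union_inter]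
  have : 0 ≤ ∑ i ∈ A ∩ B, f i := Finset.sum_nonneg fun i _ => hf i
  linarith

/-- the product in the sieve -/
theorem prod_bound (S : Set ℕ) [DecidablePred (· ∈ S)] (hS : ∀ p ∈ S, p.Prime) (r : ℕ → ℤ)
    (y0 y B : ℕ) (b : ℤ) (hb0 : b ≠ 0) :
    ∏ p ∈ pz y, (1 - (nuB (QQ S r y0 B b) p : ℝ) / p) ≤
      Real.exp (-(∑ p ∈ (Icc 1 y).filter (· ∈ S), (1 : ℝ) / p) +
        ∑ p ∈ (Icc 1 y0).filter Nat.Prime, (1 : ℝ) / p +
        ∑ p ∈ b.natAbs.primeFactors.filter (fun p => y0 < p), (1 : ℝ) / p) := by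
  classical
  have hQ := perB S r y0 B b
  have h1 : ∏ p ∈ pz y, (1 - (nuB (QQ S r y0 B b) p : ℝ) / p) ≤
      ∏ p ∈ pz y, Real.exp (-((nuB (QQ S r y0 B b) p : ℝ) / p)) := by
    refine Finset.prod_le_prod ?_ ?_
    · intro p hp
      have hpp := (mem_pz.1 hp).2
      have h2 : (nuB (QQ S r y0 B b) p : ℝ) ≤ 1 := by exact_mod_cast hQ.few p hpp
      have h3 : (1 : ℝ) ≤ p := by exact_mod_cast hpp.one_lt.le
      rw [sub_nonneg, div_le_one (by linarith)]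
      linarith
    · intro p _
      have := Real.add_one_le_exp (-((nuB (QQ S r y0 B b) p : ℝ) / p))
      linarith
  refine h1.trans ?_
  rw [← Real.exp_sum, Real.exp_le_exp, Finset.sum_neg_distrib]
  have h4 : ∑ p ∈ (Icc 1 y).filter (· ∈ S), (1 : ℝ) / p ≤
      ∑ p ∈ pz y, (nuB (QQ S r y0 B b) p : ℝ) / p +
        (∑ p ∈ (Icc 1 y0).filter Nat.Prime, (1 : ℝ) / p +
        ∑ p ∈ b.natAbs.primeFactors.filter (fun p => y0 < p), (1 : ℝ) / p) := by
    have h5 : (Icc 1 y).filter (· ∈ S) ⊆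
        ((pz y).filter (fun p => p ∈ S ∧ y0 < p ∧ ¬ (p : ℤ) ∣ b)) ∪
          ((Icc 1 y0).filter Nat.Prime ∪
            ((Icc 1 y).filter (fun p => p ∈ S ∧ y0 < p ∧ (p : ℤ) ∣ b))) := by
      intro p hp
      rw [Finset.mem_filter, Finset.mem_Icc] at hp
      rw [Finset.mem_union, Finset.mem_union, Finset.mem_filter, Finset.mem_filter,
        Finset.mem_filter, mem_pz, Finset.mem_Icc, Finset.mem_Icc]
      have hpp := hS p hp.2
      by_cases h6 : y0 < p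
      · by_cases h7 : (p : ℤ) ∣ b
        · right; right
          exact ⟨hp.1, hp.2, h6, h7⟩
        · left
          exact ⟨⟨hp.1.2, hpp⟩, hp.2, h6, h7⟩
      · right; left
        exact ⟨⟨hp.1.1, by omega⟩, hpp⟩
    have hnn : ∀ p : ℕ, (0 : ℝ) ≤ (1 : ℝ) / p := fun p => by positivity
    refine (Finset.sum_le_sum_of_subset_of_nonneg h5 fun p _ _ => hnn p).trans ?_
    refine (sum_union_le' _ _ _ hnn).trans ?_
    refine add_le_add ?_ ((sum_union_le' _ _ _ hnn).trans (add_le_add le_rfl ?_))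
    · rw [Finset.sum_filter]
      refine Finset.sum_le_sum fun p hp => ?_
      have hpp := (mem_pz.1 hp).2
      split_ifs with h
      · have h7 : (1 : ℝ) ≤ nuB (QQ S r y0 B b) p := by
          exact_mod_cast nuB_ge S r y0 B b p hpp h.1 h.2.1 h.2.2
        exact div_le_div_of_nonneg_right h7 (Nat.cast_nonneg _)
      · positivity
    · refine Finset.sum_le_sum_of_subset_of_nonneg ?_ fun p _ _ => hnn p
      intro p hp
      rw [Finset.mem_filter] at hp ⊢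
      obtain ⟨-, h8, h9, h10⟩ := hp
      refine ⟨?_, h9⟩
      rw [Nat.mem_primeFactors]
      exact ⟨hS p h8, Int.natCast_dvd.1 h10, Int.natAbs_ne_zero.2 hb0⟩
  linarith

end Pool.Agent.V11235.SF
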